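import Pool.Agent.helper31.GPR.Spec

/-!
# Row gpr:MLP (MP_7a3aac_co)
-/

set_option autoImplicit false

namespace Pool.Agent.GPR

open Pool.Agent.helper25.QST

theorem MLP_add_self {V : Type} [AddCommGroup V] [Module (ZMod 2) V] (v : V) : v + v = 0 := by
  have h : (2 : ZMod 2) • v = 0 := by
    have h2 : (2 : ZMod 2) = 0 := rfl
    rw [h2, zero_smul]
  rwa [two_smul] at h

theorem MLP_W {V : Type} [AddCommGroup V] [Module (ZMod 2) V] [Finite V] (x h : V) (D : V →ₗ[ZMod 2] V) :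
    Module.finrank (ZMod 2) (Wh x h D) ≤ 4 := by
  classical
  unfold Wh
  have h1 : ({x, h, D x, D h} : Set V) = (({x, h, D x, D h} : Finset V) : Set V) := by
    push_cast
    rfl
  rw [h1]
  exact (finrank_span_finset_le_card _).trans Finset.card_le_four

theorem MLP (hML : ML_stmt) (hKR2 : KR2_stmt) : MLP_stmt := by
  classical
  intro V _ _ _ S J V1 hA x h hx hxh hh
  obtain ⟨D, hD⟩ : ∃ D : V →ₗ[ZMod 2] V, D = J x + J (x + h) := ⟨_, rfl⟩
  rw [← hD]
  have hne : x ≠ x + h := fun h1 => hh (by simpa using h1.symm)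
  have hker : ∀ e : ZMod 2, Module.finrank (ZMod 2) (LinearMap.ker (D + e • LinearMap.id)) ≤ 3 := by
    intro e
    rw [hD]
    exact hA.lc.ker x hx (x + h) hxh hne e
  have hW := MLP_W x h D
  obtain ⟨W, hWd⟩ : ∃ W : Submodule (ZMod 2) V, W = Wh x h D := ⟨_, rfl⟩
  rw [← hWd] at hW ⊢
  have hk := fun e e' : ZMod 2 => hKR2 V D W hker hW e e'
  obtain ⟨T, hT⟩ : ∃ T : ZMod 2 → ZMod 2 → Set V, T = fun e e' => {y : V | (D + e • (LinearMap.id : V →ₗ[ZMod 2] V))
    ((D + e' • (LinearMap.id : V →ₗ[ZMod 2] V)) y) ∈ W} := ⟨_, rfl⟩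
  have hk' : ∀ e e' : ZMod 2, (T e e').ncard ≤ 2 ^ 10 := by
    intro e e'
    rw [hT]
    exact hk e e'
  have hsub : {y | y ∈ Rh S J V1 h ∧ D (D y) + D y + y ∉ W} ⊆ (T 0 0 ∪ T 0 1) ∪ T 1 1 := by
    rintro y ⟨hy, hyn⟩
    have h1 := hML V S J V1 hA x h y hx hxh hy
    rw [← hD, ← hWd, Submodule.mem_sup] at h1
    obtain ⟨u, hu, w, hw, huw⟩ := h1
    rw [Submodule.mem_span_pair] at hu
    obtain ⟨α, β, hαβ⟩ := hu
    have hcases : ∀ e : ZMod 2, e = 0 ∨ e = 1 := by decide
    have key : D (D y) = α • D y + β • y + w := by rw [← huw, ← hαβ]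
    rcases hcases α with rfl | rfl <;> rcases hcases β with rfl | rfl
    · left
      left
      rw [hT]
      show (D + (0 : ZMod 2) • (LinearMap.id : V →ₗ[ZMod 2] V)) ((D + (0 : ZMod 2) • (LinearMap.id : V →ₗ[ZMod 2] V)) y) ∈ W
      simp only [zero_smul, add_zero, zero_add] at key ⊢
      rw [key]
      exact hw
    · right
      rw [hT]
      show (D + (1 : ZMod 2) • (LinearMap.id : V →ₗ[ZMod 2] V)) ((D + (1 : ZMod 2) • (LinearMap.id : V →ₗ[ZMod 2] V)) y) ∈ W
      simp only [zero_smul, one_smul, zero_add, LinearMap.add_apply, LinearMap.id_apply, map_add] at key ⊢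
      rw [key]
      have e1 : y + w + D y + (D y + y) = w + (y + y) + (D y + D y) := by abel
      rw [e1, MLP_add_self, MLP_add_self, add_zero, add_zero]
      exact hw
    · left
      right
      rw [hT]
      show (D + (0 : ZMod 2) • (LinearMap.id : V →ₗ[ZMod 2] V)) ((D + (1 : ZMod 2) • (LinearMap.id : V →ₗ[ZMod 2] V)) y) ∈ W
      simp only [zero_smul, one_smul, add_zero, LinearMap.add_apply, LinearMap.id_apply, map_add] at key ⊢
      rw [key]
      have e1 : D y + w + D y = w + (D y + D y) := by abel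
      rw [e1, MLP_add_self, add_zero]
      exact hw
    · exfalso
      apply hyn
      simp only [one_smul] at key
      rw [key]
      have e1 : D y + y + w + D y + y = w + (y + y) + (D y + D y) := by abel
      rw [e1, MLP_add_self, MLP_add_self, add_zero, add_zero]
      exact hw
  calc {y | y ∈ Rh S J V1 h ∧ D (D y) + D y + y ∉ W}.ncard
      ≤ ((T 0 0 ∪ T 0 1) ∪ T 1 1).ncard := Set.ncard_le_ncard hsub (Set.toFinite _)
    _ ≤ (T 0 0 ∪ T 0 1).ncard + (T 1 1).ncard := Set.ncard_union_le _ _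
    _ ≤ ((T 0 0).ncard + (T 0 1).ncard) + (T 1 1).ncard := Nat.add_le_add_right (Set.ncard_union_le _ _) _
    _ ≤ 3 * 2 ^ 10 := by
      have h1 := hk' 0 0
      have h2 := hk' 0 1
      have h3 := hk' 1 1
      omega

end Pool.Agent.GPR
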